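import Pool.Agent.N627.ND.Stm

/-!
# Project ND (helper627): models transport links

Author: helper691.
-/

set_option autoImplicit false

namespace Pool.Agent.N691.ND

open Pool.Agent.N627.ND

variable {X V : Type} {H : SimpleGraph X} {G : SimpleGraph V} {ρ : ℕ}

open Classical in
/-- the path of the model between the centres of `x` and `y` -/
noncomputable def seg (M : Model H G ρ) (x y : X) (a : ℕ) : V :=
  if h : H.Adj x y then (M.walk x y h).choose.getVert a else M.c x

theorem seg_zero (M : Model H G ρ) (x y : X) : seg M x y 0 = M.c x := by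
  unfold seg
  split_ifs with h
  · exact SimpleGraph.Walk.getVert_zero _
  · rfl

theorem seg_last (M : Model H G ρ) {x y : X} (h : x = y ∨ H.Adj x y) : seg M x y ρ = M.c y := by
  unfold seg
  rcases h with rfl | h
  · rw [dif_neg (H.loopless.irrefl x)]
  · rw [dif_pos h]
    exact SimpleGraph.Walk.getVert_of_length_le _ (M.walk x y h).choose_spec.1

theorem seg_step (M : Model H G ρ) (x y : X) (a : ℕ) :
    seg M x y a = seg M x y (a + 1) ∨ G.Adj (seg M x y a) (seg M x y (a + 1)) := by
  unfold seg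
  split_ifs with h
  · rcases Nat.lt_or_ge a (M.walk x y h).choose.length with h1 | h1
    · exact Or.inr (SimpleGraph.Walk.adj_getVert_succ _ h1)
    · left
      rw [SimpleGraph.Walk.getVert_of_length_le _ h1,
        SimpleGraph.Walk.getVert_of_length_le _ (by omega)]
  · exact Or.inl rfl

theorem seg_mem (M : Model H G ρ) (x y : X) (a : ℕ) :
    seg M x y a ∈ M.B x ∪ M.Q s(x, y) ∪ M.B y := by
  unfold seg
  split_ifs with h
  · exact (M.walk x y h).choose_spec.2 _ (SimpleGraph.Walk.getVert_mem_support _ _)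
  · exact Or.inl (Or.inl (M.c_mem x))

theorem d : S_D := by
  rintro X V H G ρ hρ ⟨M⟩ R t ⟨v, P, h1, h2⟩
  refine ⟨fun i => M.c (v i),
    fun i j a => seg M (P i j (a / ρ)) (P i j (a / ρ + 1)) (a % ρ), ?_, ?_⟩
  · intro i j hij
    obtain ⟨h3, h4, h5⟩ := h1 i j hij
    refine ⟨?_, ?_, ?_⟩
    · simp only [Nat.zero_div, Nat.zero_mod]
      rw [seg_zero, h3]
    · simp only
      rw [Nat.mul_div_cancel_left _ (by omega), Nat.mul_mod_right, seg_zero, h4]
    · intro a ha
      have ha' : a / ρ < R := Nat.div_lt_of_lt_mul ha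
      have hlt : a % ρ < ρ := Nat.mod_lt _ (by omega)
      have hdm := Nat.div_add_mod a ρ
      rcases Nat.lt_or_ge (a % ρ + 1) ρ with h6 | h6
      · have e1 : (a + 1) / ρ = a / ρ := by
          rw [Nat.div_eq_iff (by omega), mul_comm (a / ρ) ρ]
          constructor <;> omega
        have e2 : (a + 1) % ρ = a % ρ + 1 := by
          have h7 := Nat.div_add_mod (a + 1) ρ
          rw [e1] at h7
          omega
        simp only
        rw [e1, e2]
        exact seg_step _ _ _ _
      · have e0 : a + 1 = ρ * (a / ρ + 1) := by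
          rw [Nat.mul_add, mul_one]
          omega
        have e1 : (a + 1) / ρ = a / ρ + 1 := by
          rw [e0, Nat.mul_div_cancel_left _ (by omega)]
        have e2 : (a + 1) % ρ = 0 := by
          rw [e0, Nat.mul_mod_right]
        simp only
        rw [e1, e2, seg_zero]
        have h7 := seg_step M (P i j (a / ρ)) (P i j (a / ρ + 1)) (a % ρ)
        rw [show a % ρ + 1 = ρ by omega, seg_last M (h5 _ ha')] at h7
        exact h7
  · intro i j k l hij hjk hkl a b ha hb
    have key : ∀ (i j : Fin t) (a : ℕ), i < j → a ≤ ρ * R → ∃ x y : X,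
        (∃ c ≤ R, P i j c = x) ∧ (∃ c ≤ R, P i j c = y) ∧
        seg M (P i j (a / ρ)) (P i j (a / ρ + 1)) (a % ρ) ∈ M.B x ∪ M.Q s(x, y) ∪ M.B y := by
      intro i j a _ ha
      rcases Nat.lt_or_ge a (ρ * R) with h3 | h3
      · have ha' : a / ρ < R := Nat.div_lt_of_lt_mul h3
        exact ⟨_, _, ⟨a / ρ, by omega, rfl⟩, ⟨a / ρ + 1, by omega, rfl⟩, seg_mem _ _ _ _⟩
      · have h4 : a = ρ * R := le_antisymm ha h3
        refine ⟨P i j R, P i j R, ⟨R, le_rfl, rfl⟩, ⟨R, le_rfl, rfl⟩, ?_⟩
        rw [h4, Nat.mul_div_cancel_left _ (by omega), Nat.mul_mod_right, seg_zero]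
        exact Or.inl (Or.inl (M.c_mem _))
    obtain ⟨x, y, ⟨c1, hc1, rfl⟩, ⟨c2, hc2, rfl⟩, hm⟩ := key i j a hij ha
    obtain ⟨x', y', ⟨c3, hc3, rfl⟩, ⟨c4, hc4, rfl⟩, hm'⟩ := key k l b hkl hb
    simp only
    intro he
    rw [← he] at hm'
    have n13 := h2 i j k l hij hjk hkl c1 c3 hc1 hc3
    have n14 := h2 i j k l hij hjk hkl c1 c4 hc1 hc4
    have n23 := h2 i j k l hij hjk hkl c2 c3 hc2 hc3
    have n24 := h2 i j k l hij hjk hkl c2 c4 hc2 hc4
    have nQ : s(P i j c1, P i j c2) ≠ s(P k l c3, P k l c4) := by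
      intro h
      rw [Sym2.eq_iff] at h
      rcases h with h | h
      · exact n13 h.1
      · exact n14 h.1
    rcases hm with (hm | hm) | hm <;> rcases hm' with (hm' | hm') | hm'
    · exact Set.disjoint_left.1 (M.B_disj _ _ n13) hm hm'
    · exact Set.disjoint_left.1 (M.BQ_disj _ _) hm hm'
    · exact Set.disjoint_left.1 (M.B_disj _ _ n14) hm hm'
    · exact Set.disjoint_left.1 (M.BQ_disj _ _) hm' hm
    · exact Set.disjoint_left.1 (M.Q_disj _ _ nQ) hm hm'
    · exact Set.disjoint_left.1 (M.BQ_disj _ _) hm' hm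
    · exact Set.disjoint_left.1 (M.B_disj _ _ n23) hm hm'
    · exact Set.disjoint_left.1 (M.BQ_disj _ _) hm hm'
    · exact Set.disjoint_left.1 (M.B_disj _ _ n24) hm hm'

end Pool.Agent.N691.ND

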